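import Pool.Agent.L7lead.LA.Fin

set_option autoImplicit false
open MeasureTheory

namespace Pool.Agent.L7lead.LA

theorem final (hFIN : S_FIN) :
    ¬ (∀ d : ℕ, 1 ≤ d → ∀ M : ℝ, 0 < M → ∃ C : ℝ, 0 < C ∧
      ∀ V u : EuclideanSpace ℝ (Fin d) → ℝ, Measurable V → Measurable u →
        (∀ x, |V x| ≤ M) →
        (∀ x, |u x| ≤ Real.exp (-(C * ‖x‖))) →
        (∀ φ : EuclideanSpace ℝ (Fin d) → ℝ, ContDiff ℝ 2 φ → HasCompactSupport φ →
          ∫ x, (-(u x * ∑ i : Fin d,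
                  iteratedFDeriv ℝ 2 φ x (fun _ => EuclideanSpace.single i (1 : ℝ)))
                + V x * u x * φ x) = 0) →
        ∀ᵐ x ∂(volume : Measure (EuclideanSpace ℝ (Fin d))), u x = 0) := by
  intro h
  obtain ⟨C, hC, h⟩ := h 3 (by norm_num) 2 (by norm_num)
  obtain ⟨V, u, hV, hu, hVb, hub, heq, hne⟩ := hFIN C hC
  exact hne (h V u hV hu hVb hub heq)

end Pool.Agent.L7lead.LA
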