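import Pool.Agent.L7lead.LA.Wpr

set_option autoImplicit false
open MeasureTheory

namespace Pool.Agent.L7lead.LA

theorem t_FIN (hKER : S_KER) (hBUM : S_BUM) (hIBP : S_IBP) (hCE1 : S_CE1) (hCEZ : S_CEZ) (hCE2 : S_CE2)
    (hSUM : S_SUM) (hGRE : S_GRE) (hNT1 : S_NT1) (hNT2 : S_NT2) (hFIX : S_FIX) (hVWK : S_VWK) : S_FIN := by
  intro C hC
  obtain ⟨l, hl, Φ, hΦ⟩ := hKER C hC.le
  obtain ⟨h, B, hB, hb⟩ := hBUM
  -- thin sets against the kernel
  have hK0 : ∀ z : E, 0 ≤ Φ z * Real.exp (C * ‖z‖) := fun z => mul_nonneg (hΦ.nonneg z) (Real.exp_pos _).le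
  obtain ⟨A, μ, hA, hμ, hthin⟩ := hNT2 (fun z => Φ z * Real.exp (C * ‖z‖)) hK0 hΦ.int
    (1 / (2 * (l + 1))) (by positivity)
  obtain ⟨δ', hδ', L1, hL1, hwin'⟩ := hNT1 h B hB hb (1 + C) A μ hA hμ
  obtain ⟨δ, hδ, hδ1, hδle⟩ : ∃ δ : ℝ, 0 < δ ∧ δ ≤ 1 ∧ δ ≤ δ' :=
    ⟨min δ' 1, lt_min hδ' one_pos, min_le_right _ _, min_le_left _ _⟩
  have hwin : ∀ L : ℝ, L1 ≤ L → ∀ (k : (Fin 3 → ℤ) → E) (F : E → ℝ),
      (∀ i, 1 ≤ ‖k i‖ ∧ ‖k i‖ ≤ 1 + C) →
      (∀ i j, i ≠ j → (∀ m, |i m - j m| ≤ 1) → 1 / 20 ≤ ‖k i - k j‖ ∧ 1 / 20 ≤ ‖k i + k j‖) →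
      IsF h L k F → ∀ x : E, volume {y : E | y ∈ Metric.ball x A ∧ |F y| < δ} ≤ ENNReal.ofReal μ :=
    fun L hL k F hk hs hF x => le_trans (measure_mono (fun y (hy : y ∈ Metric.ball x A ∧ |F y| < δ) =>
      (⟨hy.1, hy.2.trans_le hδle⟩ : y ∈ Metric.ball x A ∧ |F y| < δ'))) (hwin' L hL k F hk hs hF x)
  obtain ⟨L2, hL2, hce⟩ := hCE2 h B hb C hC.le (δ / 32) (by positivity)
  set L := max L1 L2 with hLdef
  have hL : 0 < L := lt_of_lt_of_le hL1 (le_max_left _ _)
  obtain ⟨R, hR, hce'⟩ := hce L (le_max_right _ _)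
  obtain ⟨hwc, hw01, hw0, hwlip, hwdec⟩ := t_WPR C R hC.le hR
  -- frequencies
  let r : (Fin 3 → ℤ) → ℝ := fun i =>
    Real.sqrt (1 + (C * ‖L • pt i‖) ^ 2 / (R ^ 2 + ‖L • pt i‖ ^ 2))
  have hr1 : ∀ i, 1 ≤ r i := fun i => by
    apply Real.le_sqrt_of_sq_le
    have : 0 ≤ (C * ‖L • pt i‖) ^ 2 / (R ^ 2 + ‖L • pt i‖ ^ 2) := by positivity
    linarith
  have hr2 : ∀ i, r i ≤ 1 + C := fun i => by
    show Real.sqrt _ ≤ _
    rw [Real.sqrt_le_left (by positivity)]
    have : (C * ‖L • pt i‖) ^ 2 / (R ^ 2 + ‖L • pt i‖ ^ 2) ≤ C ^ 2 := by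
      rw [div_le_iff₀ (by positivity)]
      nlinarith [sq_nonneg (C * R)]
    nlinarith
  obtain ⟨k, hk1, hk2⟩ := hGRE r hr1
  have hfreq : ∀ i, Freq C R L (k i) i := fun i => by
    refine ⟨(hk1 i).2, ?_⟩
    rw [(hk1 i).1]
    exact Real.sq_sqrt (by positivity)
  -- the sum
  obtain ⟨U, G, hUc, hGc, hUG, hUT, hUb, hUe⟩ := hSUM L hL (fun i => cell C R L h (k i) i)
    (fun i => gcell C R L h (k i) i) (fun i => (hCEZ h B hb C R L hR hL (k i) i).1)
    (fun i => (hCEZ h B hb C R L hR hL (k i) i).2.1)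
    (fun i x hx => (hCEZ h B hb C R L hR hL (k i) i).2.2.2 x hx)
    (fun i => by
      have h1 := hCE1 h B hb C R L hR hL (k i) i
      have h2 := hIBP _ h1.1 (hCEZ h B hb C R L hR hL (k i) i).2.2.1
      have h3 : Lap (cell C R L h (k i) i) = gcell C R L h (k i) i := funext h1.2
      rw [h3] at h2; exact h2)
    (w C R) (fun x => (hw01 x).1.le) (δ / 32) (by positivity)
    (fun i x => hce' R le_rfl (k i) i (hfreq i) x)
  have hUb8 : ∀ x, |U x| ≤ 8 * w C R x := by
    apply hUb
    intro i x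
    show |w C R x * (Hc h L i x * Real.cos _)| ≤ _
    rw [abs_mul, abs_of_pos (hw01 x).1]
    have h1 : |Hc h L i x| ≤ 1 := by
      unfold Hc
      rw [Finset.abs_prod]
      apply Finset.prod_le_one
      · intro j _; exact abs_nonneg _
      · intro j _; rw [abs_of_nonneg (hb.nonneg _)]; exact hb.le_one _
    have h2 : |Hc h L i x * Real.cos (inner ℝ (k i) (x - L • pt i))| ≤ 1 := by
      rw [abs_mul]
      exact mul_le_one₀ h1 (abs_nonneg _) (Real.abs_cos_le_one _)
    calc w C R x * _ ≤ w C R x * 1 := mul_le_mul_of_nonneg_left h2 (hw01 x).1.le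
      _ = _ := mul_one _
  -- F and the thin set
  let F : E → ℝ := fun x => U x / w C R x
  have hF : IsF h L k F := by
    intro x T hT
    show U x / w C R x = _
    rw [div_eq_iff (hw01 x).1.ne', hUT x T hT, Finset.sum_mul]
    apply Finset.sum_congr rfl
    intro i _
    unfold cell; ring
  have hFc : Continuous F := hUc.div hwc (fun x => (hw01 x).1.ne')
  let N : Set E := {x | |F x| < δ}
  have hN : MeasurableSet N := measurableSet_lt hFc.abs.measurable measurable_const
  have hNthin : ∀ x : E, ∫ y in N, Φ (x - y) * Real.exp (C * ‖x - y‖) ≤ 1 / (2 * (l + 1)) := by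
    apply hthin N hN
    intro x
    exact hwin L (le_max_left _ _) k F (fun i => ⟨by rw [(hk1 i).1]; exact hr1 i, by rw [(hk1 i).1]; exact hr2 i⟩)
      hk2 hF x
  have hNthin' : ∀ x : E, (l + 1) * ∫ y in N, Φ (x - y) * Real.exp (C * ‖x - y‖) ≤ 1 / 2 := by
    intro x
    calc (l + 1) * ∫ y in N, Φ (x - y) * Real.exp (C * ‖x - y‖) ≤ (l + 1) * (1 / (2 * (l + 1))) :=
          mul_le_mul_of_nonneg_left (hNthin x) (by positivity)
      _ = 1 / 2 := by field_simp
  let f : E → ℝ := fun x => G x + U x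
  have hfc : Continuous f := hGc.add hUc
  have hfb : ∀ x, |f x| ≤ δ / 4 * w C R x := fun x => by
    have := hUe x
    calc |f x| ≤ 8 * (δ / 32) * w C R x := this
      _ = _ := by ring
  obtain ⟨S, hSm, hS0, hSN, hSb, hvb⟩ := hFIX C l Φ hl hΦ.meas hΦ.nonneg hΦ.int hC.le (w C R) f N (δ / 4)
    hwc.measurable (fun x => (hw01 x).1) hwlip hN hNthin' hfc.measurable (by positivity) hfb
  let v : E → ℝ := fun x => ∫ y, Φ (x - y) * S y
  obtain ⟨hvm, hvw⟩ := hVWK C l Φ hC.le hΦ S (2 * (δ / 4)) hSm (fun x => by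
    calc |S x| ≤ 2 * (δ / 4) * w C R x := hSb x
      _ ≤ 2 * (δ / 4) * 1 := mul_le_mul_of_nonneg_left (hw01 x).2 (by positivity)
      _ = _ := mul_one _)
  have hvb' : ∀ x, (l + 1) * |v x| ≤ δ / 4 * w C R x := hvb
  have hvb1 : ∀ x, |v x| ≤ δ / 4 * w C R x := fun x => by
    have h1 := hvb' x
    have h2 : 0 ≤ |v x| := abs_nonneg _
    nlinarith
  let u0 : E → ℝ := fun x => U x + v x
  have hu0m : Measurable u0 := hUc.measurable.add hvm
  let V : E → ℝ := fun x => -1 + Nᶜ.indicator (fun x => (f x + (l + 1) * v x) / u0 x) x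
  have hVm : Measurable V := by
    apply measurable_const.add
    apply Measurable.indicator _ hN.compl
    exact (hfc.measurable.add (hvm.const_mul _)).div hu0m
  -- lower bound off N
  have hlow : ∀ x, x ∉ N → 3 / 4 * δ * w C R x ≤ |u0 x| := by
    intro x hx
    have h1 : δ ≤ |F x| := not_lt.mp hx
    have h2 : δ * w C R x ≤ |U x| := by
      have : |F x| = |U x| / w C R x := by
        show |U x / w C R x| = _
        rw [abs_div, abs_of_pos (hw01 x).1]
      rw [this, le_div_iff₀ (hw01 x).1] at h1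
      exact h1
    have h3 := hvb1 x
    have h4 : |U x| ≤ |u0 x| + |v x| := by
      have : U x = u0 x - v x := by show U x = U x + v x - v x; ring
      rw [this]; exact abs_sub _ _
    linarith
  have hVb : ∀ x, |V x| ≤ 2 := by
    intro x
    show |-1 + Nᶜ.indicator (fun x => (f x + (l + 1) * v x) / u0 x) x| ≤ 2
    by_cases hx : x ∈ N
    · rw [Set.indicator_of_notMem (by simpa using hx)]; norm_num
    · rw [Set.indicator_of_mem (by simpa using hx)]
      have h1 := hlow x hx
      have hw := (hw01 x).1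
      have h2 : 0 < |u0 x| := lt_of_lt_of_le (by positivity) h1
      have h3 : |f x + (l + 1) * v x| ≤ δ / 2 * w C R x := by
        calc |f x + (l + 1) * v x| ≤ |f x| + |(l + 1) * v x| := abs_add_le _ _
          _ = |f x| + (l + 1) * |v x| := by rw [abs_mul, abs_of_pos (by linarith : (0:ℝ) < l + 1)]
          _ ≤ δ / 4 * w C R x + δ / 4 * w C R x := add_le_add (hfb x) (hvb' x)
          _ = _ := by ring
      have h4 : |(f x + (l + 1) * v x) / u0 x| ≤ 1 := by
        rw [abs_div, div_le_one h2]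
        have : 0 < δ * w C R x := by positivity
        linarith
      calc |-1 + (f x + (l + 1) * v x) / u0 x| ≤ |(-1 : ℝ)| + |(f x + (l + 1) * v x) / u0 x| := abs_add_le _ _
        _ ≤ 1 + 1 := by rw [abs_neg, abs_one]; linarith
        _ = 2 := by norm_num
  -- the equation
  have hVu : ∀ x, V x * u0 x = G x + (l * v x - S x) := by
    intro x
    show (-1 + Nᶜ.indicator (fun x => (f x + (l + 1) * v x) / u0 x) x) * u0 x = _
    by_cases hx : x ∈ N
    · rw [Set.indicator_of_notMem (by simpa using hx), hSN x hx]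
      show (-1 + 0) * (U x + v x) = G x + (l * v x - ((G x + U x) + (l + 1) * v x))
      ring
    · rw [Set.indicator_of_mem (by simpa using hx), hS0 x hx]
      have h1 := hlow x hx
      have hw := (hw01 x).1
      have h2 : u0 x ≠ 0 := by
        intro h0
        rw [h0, abs_zero] at h1
        have : 0 < 3 / 4 * δ * w C R x := by positivity
        linarith
      have h3 : (f x + (l + 1) * v x) / u0 x * u0 x = f x + (l + 1) * v x := div_mul_cancel₀ _ h2
      calc (-1 + (f x + (l + 1) * v x) / u0 x) * u0 x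
          = -u0 x + (f x + (l + 1) * v x) / u0 x * u0 x := by ring
        _ = -(U x + v x) + ((G x + U x) + (l + 1) * v x) := by rw [h3]
        _ = _ := by ring
  -- size of u0
  have hu0b : ∀ x, |u0 x| ≤ (8 + δ / 4) * w C R x := fun x => by
    calc |u0 x| ≤ |U x| + |v x| := abs_add_le _ _
      _ ≤ 8 * w C R x + δ / 4 * w C R x := add_le_add (hUb8 x) (hvb1 x)
      _ = _ := by ring
  let c0 : ℝ := 1 / ((8 + δ / 4) * Real.exp (C * R))
  have hc0 : 0 < c0 := by positivity
  refine ⟨V, fun x => c0 * u0 x, hVm, hu0m.const_mul _, hVb, ?_, ?_, ?_⟩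
  · intro x
    rw [abs_mul, abs_of_pos hc0]
    calc c0 * |u0 x| ≤ c0 * ((8 + δ / 4) * (Real.exp (C * R) * Real.exp (-(C * ‖x‖)))) := by
          apply mul_le_mul_of_nonneg_left _ hc0.le
          exact (hu0b x).trans (mul_le_mul_of_nonneg_left (hwdec x) (by positivity))
      _ = Real.exp (-(C * ‖x‖)) := by
          show 1 / ((8 + δ / 4) * Real.exp (C * R)) * _ = _
          have : Real.exp (C * R) ≠ 0 := (Real.exp_pos _).ne'
          have : (8 + δ / 4) ≠ 0 := by positivity
          field_simp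
  · intro φ hφ hφc
    have hLc : Continuous (Lap φ) := by
      unfold Lap
      apply continuous_finsetSum
      intro i _
      have h1 : Continuous (fun x => iteratedFDeriv ℝ 2 φ x) := hφ.continuous_iteratedFDeriv (m := 2) le_rfl
      have h2 : Continuous (fun m : ContinuousMultilinearMap ℝ (fun _ : Fin 2 => E) ℝ =>
          m (fun _ => EuclideanSpace.single i (1 : ℝ))) :=
        (ContinuousMultilinearMap.apply ℝ (fun _ : Fin 2 => E) ℝ
          (fun _ => EuclideanSpace.single i (1 : ℝ))).continuous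
      exact h2.comp h1
    have hLs : HasCompactSupport (Lap φ) := by
      unfold Lap
      have h1 : ∀ i : Fin 3, HasCompactSupport (fun x => iteratedFDeriv ℝ 2 φ x
          (fun _ => EuclideanSpace.single i (1 : ℝ))) := fun i => by
        have := hφc.iteratedFDeriv (𝕜 := ℝ) 2
        exact this.comp_left (g := fun m : ContinuousMultilinearMap ℝ (fun _ : Fin 2 => E) ℝ =>
          m (fun _ => EuclideanSpace.single i (1 : ℝ))) (by simp)
      have h2 : (fun x => ∑ i : Fin 3, iteratedFDeriv ℝ 2 φ x (fun _ => EuclideanSpace.single i (1 : ℝ)))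
          = (fun x => iteratedFDeriv ℝ 2 φ x (fun _ => EuclideanSpace.single 0 (1 : ℝ))) +
            ((fun x => iteratedFDeriv ℝ 2 φ x (fun _ => EuclideanSpace.single 1 (1 : ℝ))) +
            (fun x => iteratedFDeriv ℝ 2 φ x (fun _ => EuclideanSpace.single 2 (1 : ℝ)))) := by
        funext x; rw [Fin.sum_univ_three]; simp [add_assoc]
      rw [h2]
      exact (h1 0).add ((h1 1).add (h1 2))
    have hUi : ∀ (g : E → ℝ), Continuous g → HasCompactSupport g → Integrable (fun x => U x * g x) :=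
      fun g hg hgc => (hUc.mul hg).integrable_of_hasCompactSupport hgc.mul_left
    have hGi : ∀ (g : E → ℝ), Continuous g → HasCompactSupport g → Integrable (fun x => G x * g x) :=
      fun g hg hgc => (hGc.mul hg).integrable_of_hasCompactSupport hgc.mul_left
    have hvi : ∀ (g : E → ℝ), Continuous g → HasCompactSupport g → Integrable (fun x => v x * g x) := by
      intro g hg hgc
      apply (hg.integrable_of_hasCompactSupport hgc).bdd_mul (c := δ / 4) hvm.aestronglyMeasurable
      apply Filter.Eventually.of_forall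
      intro x
      rw [Real.norm_eq_abs]
      calc |v x| ≤ δ / 4 * w C R x := hvb1 x
        _ ≤ δ / 4 * 1 := mul_le_mul_of_nonneg_left (hw01 x).2 (by positivity)
        _ = _ := mul_one _
    have hSi : ∀ (g : E → ℝ), Continuous g → HasCompactSupport g → Integrable (fun x => S x * g x) := by
      intro g hg hgc
      apply (hg.integrable_of_hasCompactSupport hgc).bdd_mul (c := 2 * (δ / 4)) hSm.aestronglyMeasurable
      apply Filter.Eventually.of_forall
      intro x
      rw [Real.norm_eq_abs]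
      calc |S x| ≤ 2 * (δ / 4) * w C R x := hSb x
        _ ≤ 2 * (δ / 4) * 1 := mul_le_mul_of_nonneg_left (hw01 x).2 (by positivity)
        _ = _ := mul_one _
    have hA1 : ∫ x, u0 x * Lap φ x = (∫ x, U x * Lap φ x) + ∫ x, v x * Lap φ x := by
      rw [← integral_add (hUi _ hLc hLs) (hvi _ hLc hLs)]
      apply integral_congr_ae
      apply Filter.Eventually.of_forall
      intro x; show (U x + v x) * Lap φ x = _; ring
    have hlv : Integrable (fun x => (l * v x - S x) * φ x) := by
      have h1 := ((hvi φ hφ.continuous hφc).const_mul l).sub (hSi φ hφ.continuous hφc)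
      refine h1.congr (Filter.Eventually.of_forall fun x => ?_)
      show l * (v x * φ x) - S x * φ x = _; ring
    have hA2 : ∫ x, V x * u0 x * φ x = (∫ x, G x * φ x) + ∫ x, (l * v x - S x) * φ x := by
      rw [← integral_add (hGi _ hφ.continuous hφc) hlv]
      apply integral_congr_ae
      apply Filter.Eventually.of_forall
      intro x
      show V x * u0 x * φ x = _
      rw [hVu x]; ring
    have hA3 : ∫ x, u0 x * Lap φ x = ∫ x, V x * u0 x * φ x := by
      rw [hA1, hA2, hUG φ hφ hφc, hvw φ hφ hφc]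
    have hI1 : Integrable (fun x => u0 x * Lap φ x) := by
      refine ((hUi _ hLc hLs).add (hvi _ hLc hLs)).congr (Filter.Eventually.of_forall fun x => ?_)
      show U x * Lap φ x + v x * Lap φ x = (U x + v x) * Lap φ x; ring
    have hI2 : Integrable (fun x => V x * u0 x * φ x) := by
      refine ((hGi _ hφ.continuous hφc).add hlv).congr (Filter.Eventually.of_forall fun x => ?_)
      show G x * φ x + (l * v x - S x) * φ x = V x * u0 x * φ x
      rw [hVu x]; ring
    have hE : ∀ x, -(c0 * u0 x * ∑ i : Fin 3, iteratedFDeriv ℝ 2 φ x (fun _ => EuclideanSpace.single i (1 : ℝ)))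
        + V x * (c0 * u0 x) * φ x = c0 * (V x * u0 x * φ x - u0 x * Lap φ x) := by
      intro x; unfold Lap; ring
    simp_rw [hE]
    rw [integral_const_mul, integral_sub hI2 hI1, hA3]; simp
  · intro hae
    have hU0 : U 0 = 1 := by
      rw [hUT 0 {0} ?_]
      · rw [Finset.sum_singleton]
        unfold cell Hc
        rw [hw0]
        have h0 : h 0 = 1 := hb.one 0 (by norm_num)
        have h1 : pt 0 = 0 := by ext m; simp [pt]
        simp [h0, h1]
      · intro i hi
        have hi' : i ≠ 0 := by simpa using hi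
        obtain ⟨j, hj⟩ := Function.ne_iff.mp hi'
        refine ⟨j, ?_⟩
        have h2 : (1 : ℤ) ≤ |i j| := Int.one_le_abs hj
        have h3 : (1 : ℝ) ≤ |(i j : ℝ)| := by exact_mod_cast h2
        simpa using h3
    have hev : ∀ᶠ x in nhds (0 : E), 1 / 2 < U x := by
      apply hUc.continuousAt.eventually_const_lt
      rw [hU0]; norm_num
    obtain ⟨O, hO1, hO2, hO3⟩ := mem_nhds_iff.mp hev
    have hpos : 0 < volume O := hO2.measure_pos volume ⟨0, hO3⟩
    have hzero : volume {x : E | ¬ (c0 * u0 x = 0)} = 0 := hae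
    have hsub : O ⊆ {x : E | ¬ (c0 * u0 x = 0)} := by
      intro x hx
      have h1 : 1 / 2 < U x := hO1 hx
      have h2 : |v x| ≤ 1 / 4 := by
        calc |v x| ≤ δ / 4 * w C R x := hvb1 x
          _ ≤ δ / 4 * 1 := mul_le_mul_of_nonneg_left (hw01 x).2 (by positivity)
          _ ≤ 1 / 4 := by linarith
      have h3 : 0 < u0 x := by
        show 0 < U x + v x
        have := (abs_le.mp h2).1
        linarith
      exact (mul_pos hc0 h3).ne'
    exact absurd (measure_mono_null hsub hzero) hpos.ne'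

end Pool.Agent.L7lead.LA
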