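import Mathlib

/-!
# Project LA: the strong Landis conjecture fails in dimension three (statements of the parts)

Target: frozen statement S05418 (`MP_92d530_an`): with `d = 3`, `M = 2`, for every `C > 0` there are a real
measurable `V`, `|V| ≤ 2`, and a real `u`, not a.e. zero, with `|u x| ≤ exp (-C ‖x‖)` and `-Δ u + V u = 0` weakly.

Mathlib only.  Every part is a `def S_XXX : Prop`; a proof is a theorem `t_XXX : S_XXX` (or `S_A → S_B → S_XXX`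
where the doc says so) in your own file.
-/

set_option autoImplicit false
open MeasureTheory

namespace Pool.Agent.L7lead.LA

/-- three-space -/
abbrev E := EuclideanSpace ℝ (Fin 3)

/-- the Laplacian, exactly as in the frozen statement -/
noncomputable def Lap (φ : E → ℝ) (x : E) : ℝ :=
  ∑ i : Fin 3, iteratedFDeriv ℝ 2 φ x (fun _ => EuclideanSpace.single i (1 : ℝ))

/-- `Δ u = g` weakly, tested against compactly supported `C²` functions -/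
def WeakLap (u g : E → ℝ) : Prop :=
  ∀ φ : E → ℝ, ContDiff ℝ 2 φ → HasCompactSupport φ → ∫ x, u x * Lap φ x = ∫ x, g x * φ x

/-! ## The kernel -/

/-- the heat kernel in three-space at time `s > 0` -/
noncomputable def pk (s : ℝ) (x : E) : ℝ :=
  (4 * Real.pi * s) ^ (-(3 / 2) : ℝ) * Real.exp (-(‖x‖ ^ 2) / (4 * s))

/-- **KA**: exponential moments and mass of the heat kernel.  (`e^{κ‖z‖} ≤ ∏ e^{κ|z_j|}`, and in one variable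
`∫ g_s(t) e^{κ|t|} dt ≤ 2 e^{κ² s}`.) -/
def S_KA : Prop := ∀ s : ℝ, 0 < s →
  ∫ z : E, pk s z = 1 ∧
  ∀ κ : ℝ, 0 ≤ κ → Integrable (fun z : E => pk s z * Real.exp (κ * ‖z‖)) ∧
    ∫ z : E, pk s z * Real.exp (κ * ‖z‖) ≤ 8 * Real.exp (3 * κ ^ 2 * s)

/-- **KB**: the heat equation tested against `C²_c` functions. -/
def S_KB : Prop := ∀ φ : E → ℝ, ContDiff ℝ 2 φ → HasCompactSupport φ → ∀ (y : E) (s : ℝ), 0 < s →
  HasDerivAt (fun s => ∫ x, pk s (x - y) * φ x) (∫ x, pk s (x - y) * Lap φ x) s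

/-- **KC**: approximate identity. -/
def S_KC : Prop := ∀ φ : E → ℝ, Continuous φ → HasCompactSupport φ → ∀ y : E,
  Filter.Tendsto (fun s => ∫ x, pk s (x - y) * φ x) (nhdsWithin 0 (Set.Ioi 0)) (nhds (φ y))

/-- what we need of the kernel (resolvent kernel: `(l - Δ)⁻¹`) -/
structure IsKer (κ l : ℝ) (Φ : E → ℝ) : Prop where
  meas : Measurable Φ
  nonneg : ∀ x, 0 ≤ Φ x
  int : Integrable (fun z => Φ z * Real.exp (κ * ‖z‖))
  weak : ∀ φ : E → ℝ, ContDiff ℝ 2 φ → HasCompactSupport φ → ∀ y : E,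
    ∫ x, Φ (x - y) * Lap φ x = l * (∫ x, Φ (x - y) * φ x) - φ y

/-- **KER** (`S_KA → S_KB → S_KC → S_KER`): `Φ x = ∫_0^∞ e^{-l s} pk s x ds`, `l = 3 κ² + 1`.
(Tonelli for integrability; `d/ds (e^{-ls} ∫ pk s (x-y) φ) = e^{-ls} (∫ pk s (x-y) Lap φ - l ∫ pk s (x-y) φ)`,
integrate over `(0,∞)`.) -/
def S_KER : Prop := ∀ κ : ℝ, 0 ≤ κ → ∃ l : ℝ, 0 < l ∧ ∃ Φ : E → ℝ, IsKer κ l Φ

/-! ## The weight -/

/-- `ψ(x) = κ (√(R² + |x|²) - R)` -/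
noncomputable def psi (κ R : ℝ) (x : E) : ℝ := κ * (Real.sqrt (R ^ 2 + ‖x‖ ^ 2) - R)

/-- the weight `w = e^{-ψ}` -/
noncomputable def w (κ R : ℝ) (x : E) : ℝ := Real.exp (-psi κ R x)

/-- **WPR**: elementary properties of the weight. -/
def S_WPR : Prop := ∀ κ R : ℝ, 0 ≤ κ → 0 < R →
  Continuous (w κ R) ∧ (∀ x, 0 < w κ R x ∧ w κ R x ≤ 1) ∧ w κ R 0 = 1 ∧
  (∀ x y, w κ R y ≤ w κ R x * Real.exp (κ * ‖x - y‖)) ∧
  (∀ x, w κ R x ≤ Real.exp (κ * R) * Real.exp (-(κ * ‖x‖)))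

/-! ## Bumps, lattice, cells -/

/-- the cut-off of one variable, with bounds -/
structure IsBump (h : ℝ → ℝ) (B : ℝ) : Prop where
  smooth : ContDiff ℝ 2 h
  nonneg : ∀ t, 0 ≤ h t
  le_one : ∀ t, h t ≤ 1
  zero : ∀ t, 1 ≤ |t| → h t = 0
  one : ∀ t, |t| ≤ 1 / 2 → h t = 1
  d1 : ∀ t, |deriv h t| ≤ B
  d2 : ∀ t, |deriv (deriv h) t| ≤ B
  lip : ∀ s t, |h s - h t| ≤ B * |s - t|

/-- **BUM** -/
def S_BUM : Prop := ∃ (h : ℝ → ℝ) (B : ℝ), 0 < B ∧ IsBump h B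

/-- the lattice point `i ∈ ℤ³` as a vector -/
noncomputable def pt (i : Fin 3 → ℤ) : E := WithLp.toLp 2 (fun m => (i m : ℝ))

/-- the cut-off at the lattice point `L i` -/
noncomputable def Hc (h : ℝ → ℝ) (L : ℝ) (i : Fin 3 → ℤ) (x : E) : ℝ := ∏ j, h (x j / L - i j)

/-- one cell: `w · H · cos (k·(x - L i))` -/
noncomputable def cell (κ R L : ℝ) (h : ℝ → ℝ) (k : E) (i : Fin 3 → ℤ) (x : E) : ℝ :=
  w κ R x * (Hc h L i x * Real.cos (inner ℝ k (x - L • pt i)))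

/-- `∂_j H` -/
noncomputable def H1 (h : ℝ → ℝ) (L : ℝ) (i : Fin 3 → ℤ) (j : Fin 3) (x : E) : ℝ :=
  (∏ m ∈ Finset.univ.erase j, h (x m / L - i m)) * (deriv h (x j / L - i j) / L)

/-- `∂_j² H` -/
noncomputable def H2 (h : ℝ → ℝ) (L : ℝ) (i : Fin 3 → ℤ) (j : Fin 3) (x : E) : ℝ :=
  (∏ m ∈ Finset.univ.erase j, h (x m / L - i m)) * (deriv (deriv h) (x j / L - i j) / L ^ 2)

/-- `∂_j ψ` -/
noncomputable def P1 (κ R : ℝ) (j : Fin 3) (x : E) : ℝ := κ * x j / Real.sqrt (R ^ 2 + ‖x‖ ^ 2)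

/-- `∂_j² ψ` -/
noncomputable def P2 (κ R : ℝ) (j : Fin 3) (x : E) : ℝ :=
  κ * (1 / Real.sqrt (R ^ 2 + ‖x‖ ^ 2) - x j ^ 2 / Real.sqrt (R ^ 2 + ‖x‖ ^ 2) ^ 3)

/-- the Laplacian of a cell, written out -/
noncomputable def gcell (κ R L : ℝ) (h : ℝ → ℝ) (k : E) (i : Fin 3 → ℤ) (x : E) : ℝ :=
  w κ R x * ∑ j : Fin 3,
    ((P1 κ R j x ^ 2 - P2 κ R j x) * Hc h L i x * Real.cos (inner ℝ k (x - L • pt i))
      + H2 h L i j x * Real.cos (inner ℝ k (x - L • pt i))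
      - Hc h L i x * k j ^ 2 * Real.cos (inner ℝ k (x - L • pt i))
      - 2 * P1 κ R j x * H1 h L i j x * Real.cos (inner ℝ k (x - L • pt i))
      + 2 * P1 κ R j x * Hc h L i x * k j * Real.sin (inner ℝ k (x - L • pt i))
      - 2 * H1 h L i j x * k j * Real.sin (inner ℝ k (x - L • pt i)))

/-- **IBP**: Green's identity, compact supports. -/
def S_IBP : Prop := ∀ f : E → ℝ, ContDiff ℝ 2 f → HasCompactSupport f → WeakLap f (Lap f)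

/-- **LPD**: the Laplacian through one-variable second derivatives. -/
def S_LPD : Prop := ∀ f : E → ℝ, ContDiff ℝ 2 f → ∀ x : E,
  Lap f x = ∑ j : Fin 3, deriv (deriv (fun t : ℝ => f (x + t • EuclideanSpace.single j (1 : ℝ)))) 0

/-- **CE1** (`S_LPD → S_CE1`): a cell is `C²`, and its Laplacian is `gcell`. -/
def S_CE1 : Prop := ∀ (h : ℝ → ℝ) (B : ℝ), IsBump h B → ∀ κ R L : ℝ, 0 < R → 0 < L →
  ∀ (k : E) (i : Fin 3 → ℤ), ContDiff ℝ 2 (cell κ R L h k i) ∧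
    ∀ x, Lap (cell κ R L h k i) x = gcell κ R L h k i x

/-- **CEZ**: cells and their Laplacians vanish outside the cube `|x_j/L - i_j| < 1` (a `C²` function vanishing on
`[1,∞)` has vanishing derivatives there, endpoint included), are continuous, and cells have compact support. -/
def S_CEZ : Prop := ∀ (h : ℝ → ℝ) (B : ℝ), IsBump h B → ∀ κ R L : ℝ, 0 < R → 0 < L →
  ∀ (k : E) (i : Fin 3 → ℤ), Continuous (cell κ R L h k i) ∧ Continuous (gcell κ R L h k i) ∧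
    HasCompactSupport (cell κ R L h k i) ∧
    ∀ x, (∃ j, 1 ≤ |x j / L - i j|) → cell κ R L h k i x = 0 ∧ gcell κ R L h k i x = 0

/-- the condition on the frequency of cell `i`: `k ⊥ i` and `|k|² = 1 + |∇ψ(L i)|²` -/
def Freq (κ R L : ℝ) (k : E) (i : Fin 3 → ℤ) : Prop :=
  inner ℝ k (pt i) = 0 ∧ ‖k‖ ^ 2 = 1 + (κ * ‖L • pt i‖) ^ 2 / (R ^ 2 + ‖L • pt i‖ ^ 2)

/-- **CE2**: `|gcell + cell| ≤ ε w`.  With `a = L i`: on the support `‖x - a‖ ≤ 2 L`, and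
`gcell + cell = w [ (|∇ψ(x)|² - |∇ψ(a)|² - Δψ) H c + (Σ H2) c - 2 (∇ψ·∇H) c
   + 2 H ((∇ψ(x) - ∇ψ(a))·k) sin - 2 (∇H·k) sin ]`,
`‖∇ψ(x) - ∇ψ(a)‖ ≤ (2κ/R) ‖x - a‖`, `|Δψ| ≤ 6κ/R`, `|∇H| ≤ 3B/L`, `|H2| ≤ B/L²`, `‖k‖² ≤ 1 + κ²`:
first `L` large, then `R` large. -/
def S_CE2 : Prop := ∀ (h : ℝ → ℝ) (B : ℝ), IsBump h B → ∀ κ : ℝ, 0 ≤ κ → ∀ ε : ℝ, 0 < ε →
  ∃ L0 : ℝ, 0 < L0 ∧ ∀ L : ℝ, L0 ≤ L → ∃ R0 : ℝ, 0 < R0 ∧ ∀ R : ℝ, R0 ≤ R →
    ∀ (k : E) (i : Fin 3 → ℤ), Freq κ R L k i →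
      ∀ x, |gcell κ R L h k i x + cell κ R L h k i x| ≤ ε * w κ R x

/-- **SUM**: summing a locally finite family.  (`U = ∑ᶠ i, c i`; at every point at most 8 indices are active,
`i_j ∈ {⌊x_j/L⌋, ⌊x_j/L⌋+1}`; a compactly supported `φ` meets finitely many.) -/
def S_SUM : Prop := ∀ L : ℝ, 0 < L → ∀ c g : (Fin 3 → ℤ) → E → ℝ,
  (∀ i, Continuous (c i)) → (∀ i, Continuous (g i)) →
  (∀ i x, (∃ j, 1 ≤ |x j / L - i j|) → c i x = 0 ∧ g i x = 0) →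
  (∀ i, WeakLap (c i) (g i)) →
  ∀ W : E → ℝ, (∀ x, 0 ≤ W x) → ∀ ε : ℝ, 0 ≤ ε → (∀ i x, |g i x + c i x| ≤ ε * W x) →
  ∃ U G : E → ℝ, Continuous U ∧ Continuous G ∧ WeakLap U G ∧
    (∀ x (T : Finset (Fin 3 → ℤ)), (∀ i, i ∉ T → ∃ j, 1 ≤ |x j / L - i j|) → U x = ∑ i ∈ T, c i x) ∧
    (∀ b : E → ℝ, (∀ i x, |c i x| ≤ b x) → ∀ x, |U x| ≤ 8 * b x) ∧
    ∀ x, |G x + U x| ≤ 8 * ε * W x

/-! ## Directions -/

/-- **CIR**: 53 separated points on a circle of radius `r ≥ 1` orthogonal to `n` (`2 sin (π/53) > 1/10`). -/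
def S_CIR : Prop := ∀ (n : E) (r : ℝ), 1 ≤ r → ∃ p : Fin 53 → E,
  (∀ a, ‖p a‖ = r ∧ inner ℝ (p a) n = 0) ∧ ∀ a b, a ≠ b → 1 / 10 ≤ ‖p a - p b‖

/-- **GRE** (`S_CIR → S_GRE`): greedy choice along an enumeration of `ℤ³`: 26 neighbours, each forbids at most
two of the 53 points. -/
def S_GRE : Prop := ∀ r : (Fin 3 → ℤ) → ℝ, (∀ i, 1 ≤ r i) → ∃ k : (Fin 3 → ℤ) → E,
  (∀ i, ‖k i‖ = r i ∧ inner ℝ (k i) (pt i) = 0) ∧
  ∀ i j, i ≠ j → (∀ m, |i m - j m| ≤ 1) → 1 / 20 ≤ ‖k i - k j‖ ∧ 1 / 20 ≤ ‖k i + k j‖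

/-! ## Thinness of sublevel sets -/

/-- **DIR**: a direction not orthogonal to finitely many nonzero vectors. -/
def S_DIR : Prop := ∀ T : Finset E, (∀ v ∈ T, v ≠ 0) → ∃ b : E, ∀ v ∈ T, inner ℝ v b ≠ 0

/-- **LIN**: cosines with different positive squared frequencies are independent (take all derivatives,
Vandermonde / Lagrange interpolation in `-λ²`). -/
def S_LIN : Prop := ∀ (ι : Type) [Fintype ι] (a l θ : ι → ℝ), (∀ e, l e ≠ 0) →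
  (∀ e e', e ≠ e' → l e ^ 2 ≠ l e' ^ 2) → (∀ t : ℝ, ∑ e, a e * Real.cos (l e * t + θ e) = 0) → ∀ e, a e = 0

/-- **NUL** (`S_DIR → S_LIN → S_NUL`): the zero set of a non-trivial cosine sum is null.  (Along every line in
the direction `b` of DIR the sum is a nonzero real analytic function of one variable, so its zeros are countable;
Fubini in the form `volume Z = ∫_{t∈[0,1]} volume (Z - t b) dt = ∫ |{t ∈ [0,1] : y + t b ∈ Z}| dy`.) -/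
def S_NUL : Prop := ∀ (ι : Type) [Fintype ι] (a θ : ι → ℝ) (k : ι → E), (∀ e, k e ≠ 0) →
  (∀ e e', e ≠ e' → k e ≠ k e' ∧ k e ≠ -k e') → (∃ e, a e ≠ 0) →
  volume {y : E | ∑ e, a e * Real.cos (inner ℝ (k e) y + θ e) = 0} = 0

/-- **THI** (`S_NUL → S_THI`): uniform thinness, by compactness of the parameters (phases mod 2π; the centre `x`
goes into the phases): otherwise parameters `p_n → p` with `volume {|F_{p_n}| < 1/n} > η` in the ball, and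
`limsup` of these sets is contained in the zero set of `F_p`. -/
def S_THI : Prop := ∀ (ι : Type) [Fintype ι] (K s A η : ℝ), 0 < s → 0 < A → 0 < η → ∃ δ : ℝ, 0 < δ ∧
  ∀ (a θ : ι → ℝ) (k : ι → E), (∀ e, |a e| ≤ 1) → (∃ e, a e = 1) → (∀ e, s ≤ ‖k e‖ ∧ ‖k e‖ ≤ K) →
    (∀ e e', e ≠ e' → s ≤ ‖k e - k e'‖ ∧ s ≤ ‖k e + k e'‖) → ∀ x : E,
    volume {y : E | y ∈ Metric.ball x A ∧ |∑ e, a e * Real.cos (inner ℝ (k e) y + θ e)| < δ}
      ≤ ENNReal.ofReal η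

/-- the cosine part `F` of `U = w F`: the sum over the active cells, given through finite sets containing them -/
def IsF (h : ℝ → ℝ) (L : ℝ) (k : (Fin 3 → ℤ) → E) (F : E → ℝ) : Prop :=
  ∀ x (T : Finset (Fin 3 → ℤ)), (∀ i, i ∉ T → ∃ j, 1 ≤ |x j / L - i j|) →
    F x = ∑ i ∈ T, Hc h L i x * Real.cos (inner ℝ (k i) (x - L • pt i))

/-- **NT1** (`S_THI → S_NT1`): thinness in windows of radius `A`.  Use THI with `ι = Fin 3 → Fin 2` (the eight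
cells active at the centre `x`; the nearest lattice point has `Hc = 1`), threshold `2δ`, and
`|Hc h L i y - Hc h L i x| ≤ 3 B A / L`, so that `|F y - ∑_e a_e cos| ≤ 16 · 3 B A / L ≤ δ` for `L ≥ L0`. -/
def S_NT1 : Prop := ∀ (h : ℝ → ℝ) (B : ℝ), 0 < B → IsBump h B → ∀ K A μ : ℝ, 0 < A → 0 < μ →
  ∃ δ : ℝ, 0 < δ ∧ ∃ L0 : ℝ, 0 < L0 ∧ ∀ L : ℝ, L0 ≤ L → ∀ (k : (Fin 3 → ℤ) → E) (F : E → ℝ),
    (∀ i, 1 ≤ ‖k i‖ ∧ ‖k i‖ ≤ K) →
    (∀ i j, i ≠ j → (∀ m, |i m - j m| ≤ 1) → 1 / 20 ≤ ‖k i - k j‖ ∧ 1 / 20 ≤ ‖k i + k j‖) →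
    IsF h L k F → ∀ x : E, volume {y : E | y ∈ Metric.ball x A ∧ |F y| < δ} ≤ ENNReal.ofReal μ

/-- **NT2**: a set thin in all windows has small integral against an integrable kernel. -/
def S_NT2 : Prop := ∀ K : E → ℝ, (∀ z, 0 ≤ K z) → Integrable K → ∀ η : ℝ, 0 < η →
  ∃ A μ : ℝ, 0 < A ∧ 0 < μ ∧ ∀ N : Set E, MeasurableSet N →
    (∀ x : E, volume {y : E | y ∈ Metric.ball x A ∧ y ∈ N} ≤ ENNReal.ofReal μ) →
    ∀ x : E, ∫ y in N, K (x - y) ≤ η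

/-! ## The correction -/

/-- **FIX**: the linear fixed point `S = 1_N (f + (l+1) Φ∗S)` (iterate from `0`; the iterates differ by
`2^{-n} ε W`, pointwise convergence, dominated convergence). -/
def S_FIX : Prop := ∀ (κ l : ℝ) (Φ : E → ℝ), 0 < l → Measurable Φ → (∀ x, 0 ≤ Φ x) →
  Integrable (fun z => Φ z * Real.exp (κ * ‖z‖)) → 0 ≤ κ →
  ∀ (W f : E → ℝ) (N : Set E) (ε : ℝ), Measurable W → (∀ x, 0 < W x) →
  (∀ x y, W y ≤ W x * Real.exp (κ * ‖x - y‖)) → MeasurableSet N →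
  (∀ x, (l + 1) * ∫ y in N, Φ (x - y) * Real.exp (κ * ‖x - y‖) ≤ 1 / 2) →
  Measurable f → 0 ≤ ε → (∀ x, |f x| ≤ ε * W x) →
  ∃ S : E → ℝ, Measurable S ∧ (∀ x, x ∉ N → S x = 0) ∧
    (∀ x, x ∈ N → S x = f x + (l + 1) * ∫ y, Φ (x - y) * S y) ∧
    (∀ x, |S x| ≤ 2 * ε * W x) ∧
    (∀ x, (l + 1) * |∫ y, Φ (x - y) * S y| ≤ ε * W x)

/-- **VWK**: `v = Φ∗S` solves `Δ v = l v - S` weakly (Fubini and `IsKer.weak`). -/
def S_VWK : Prop := ∀ (κ l : ℝ) (Φ : E → ℝ), 0 ≤ κ → IsKer κ l Φ → ∀ (S : E → ℝ) (b : ℝ), Measurable S →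
  (∀ x, |S x| ≤ b) →
  Measurable (fun x => ∫ y, Φ (x - y) * S y) ∧
  WeakLap (fun x => ∫ y, Φ (x - y) * S y) (fun x => l * (∫ y, Φ (x - y) * S y) - S x)

/-! ## The end -/

/-- **FIN** (lead): from all of the above to the theorem. -/
def S_FIN : Prop := ∀ C : ℝ, 0 < C → ∃ V u : E → ℝ, Measurable V ∧ Measurable u ∧ (∀ x, |V x| ≤ 2) ∧
  (∀ x, |u x| ≤ Real.exp (-(C * ‖x‖))) ∧
  (∀ φ : E → ℝ, ContDiff ℝ 2 φ → HasCompactSupport φ →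
    ∫ x, (-(u x * ∑ i : Fin 3, iteratedFDeriv ℝ 2 φ x (fun _ => EuclideanSpace.single i (1 : ℝ)))
      + V x * u x * φ x) = 0) ∧
  ¬ ∀ᵐ x ∂(volume : Measure E), u x = 0

end Pool.Agent.L7lead.LA
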