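import Pool.Agent.L7lead.LA.Stm

set_option autoImplicit false
open MeasureTheory

namespace Pool.Agent.L7lead.LA

theorem rho_lip (R : ℝ) (hR : 0 < R) (x y : E) :
    Real.sqrt (R ^ 2 + ‖x‖ ^ 2) ≤ Real.sqrt (R ^ 2 + ‖y‖ ^ 2) + ‖x - y‖ := by
  have h1 : ‖x‖ ≤ ‖y‖ + ‖x - y‖ := by
    calc ‖x‖ = ‖y + (x - y)‖ := by congr 1; abel
      _ ≤ _ := norm_add_le _ _
  have h2 : ‖y‖ ≤ Real.sqrt (R ^ 2 + ‖y‖ ^ 2) := by
    apply Real.le_sqrt_of_sq_le; nlinarith [sq_nonneg R]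
  rw [Real.sqrt_le_left (by positivity)]
  have h3 : Real.sqrt (R ^ 2 + ‖y‖ ^ 2) ^ 2 = R ^ 2 + ‖y‖ ^ 2 := Real.sq_sqrt (by positivity)
  have h4 : 0 ≤ ‖x - y‖ := norm_nonneg _
  have h5 : 0 ≤ ‖x‖ := norm_nonneg _
  have h6 : 0 ≤ ‖y‖ := norm_nonneg _
  nlinarith

theorem t_WPR : S_WPR := by
  intro κ R hκ hR
  have hle : ∀ x : E, R ≤ Real.sqrt (R ^ 2 + ‖x‖ ^ 2) := fun x => by
    apply Real.le_sqrt_of_sq_le; nlinarith [sq_nonneg ‖x‖]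
  refine ⟨?_, ?_, ?_, ?_, ?_⟩
  · unfold w psi; fun_prop
  · intro x
    refine ⟨Real.exp_pos _, ?_⟩
    unfold w psi
    rw [Real.exp_le_one_iff]
    have := mul_nonneg hκ (sub_nonneg.mpr (hle x))
    linarith
  · unfold w psi
    have : Real.sqrt (R ^ 2 + ‖(0 : E)‖ ^ 2) = R := by
      rw [norm_zero]; simp [Real.sqrt_sq hR.le]
    rw [this]; simp
  · intro x y
    unfold w psi
    rw [← Real.exp_add, Real.exp_le_exp]
    have h := rho_lip R hR x y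
    nlinarith [mul_le_mul_of_nonneg_left h hκ]
  · intro x
    unfold w psi
    rw [← Real.exp_add, Real.exp_le_exp]
    have h2 : ‖x‖ ≤ Real.sqrt (R ^ 2 + ‖x‖ ^ 2) := by
      apply Real.le_sqrt_of_sq_le; nlinarith [sq_nonneg R]
    nlinarith [mul_le_mul_of_nonneg_left h2 hκ]

end Pool.Agent.L7lead.LA
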